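import Mathlib

set_option autoImplicit false

namespace Pool.Agent.H169Z

open Finset

/-- number of elements of `B` below `x` -/
def rk (B : Finset ℕ) (x : ℕ) : ℕ := (B.filter (· < x)).card

theorem rk_mono (B : Finset ℕ) {x y : ℕ} (h : x ≤ y) : rk B x ≤ rk B y := by
  apply card_le_card
  intro a ha
  simp only [mem_filter] at ha ⊢
  exact ⟨ha.1, by omega⟩

theorem rk_lt (B : Finset ℕ) {x y : ℕ} (hx : x ∈ B) (h : x < y) : rk B x < rk B y := by
  apply card_lt_card
  rw [ssubset_iff_of_subset]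
  · exact ⟨x, by simp [hx, h], by simp⟩
  · intro a ha
    simp only [mem_filter] at ha ⊢
    exact ⟨ha.1, by omega⟩

theorem rk_lt_card (B : Finset ℕ) {x : ℕ} (hx : x ∈ B) : rk B x < B.card := by
  apply card_lt_card
  rw [ssubset_iff_of_subset (filter_subset _ _)]
  exact ⟨x, hx, by simp⟩

theorem rk_inj (B : Finset ℕ) {x y : ℕ} (hx : x ∈ B) (hy : y ∈ B) (h : rk B x = rk B y) :
    x = y := by
  rcases lt_trichotomy x y with h1 | h1 | h1
  · have := rk_lt B hx h1; omega
  · exact h1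
  · have := rk_lt B hy h1; omega

theorem rk_surj (B : Finset ℕ) {i : ℕ} (hi : i < B.card) : ∃ x ∈ B, rk B x = i := by
  have h1 : B.image (rk B) = range B.card := by
    apply eq_of_subset_of_card_le
    · intro a ha
      obtain ⟨x, hx, rfl⟩ := mem_image.1 ha
      exact mem_range.2 (rk_lt_card B hx)
    · rw [card_range, card_image_of_injOn (fun x hx y hy h => rk_inj B hx hy h)]
  have h2 : i ∈ B.image (rk B) := by rw [h1]; exact mem_range.2 hi
  exact mem_image.1 h2

/-- increasing enumeration of a finite set of naturals, `0` after the last element -/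
noncomputable def en (B : Finset ℕ) (i : ℕ) : ℕ :=
  if h : ∃ x ∈ B, rk B x = i then h.choose else 0

theorem en_rk (B : Finset ℕ) {x : ℕ} (hx : x ∈ B) : en B (rk B x) = x := by
  have h : ∃ y ∈ B, rk B y = rk B x := ⟨x, hx, rfl⟩
  rw [en, dif_pos h]
  exact rk_inj B h.choose_spec.1 hx h.choose_spec.2

theorem en_spec (B : Finset ℕ) {i : ℕ} (hi : i < B.card) : en B i ∈ B ∧ rk B (en B i) = i := by
  obtain ⟨x, hx, rfl⟩ := rk_surj B hi
  rw [en_rk B hx]; exact ⟨hx, rfl⟩

theorem en_zero (B : Finset ℕ) {i : ℕ} (hi : B.card ≤ i) : en B i = 0 := by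
  rw [en, dif_neg]
  rintro ⟨x, hx, rfl⟩
  have := rk_lt_card B hx; omega

theorem en_lt (B : Finset ℕ) {i j : ℕ} (hij : i < j) (hj : j < B.card) : en B i < en B j := by
  have h1 := en_spec B (hij.trans hj)
  have h2 := en_spec B hj
  by_contra hc
  have := rk_mono B (not_lt.1 hc)
  omega

theorem en_bound (B : Finset ℕ) {n : ℕ} (hn : 0 < n) (hB : B ⊆ range n) (i : ℕ) : en B i < n := by
  by_cases hi : i < B.card
  · exact mem_range.1 (hB (en_spec B hi).1)
  · rw [en_zero B (not_lt.1 hi)]; exact hn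

/-- the part of `B` in the interval `[a, b)` -/
def win (B : Finset ℕ) (a b : ℕ) : Finset ℕ := B.filter (fun x => a ≤ x ∧ x < b)

theorem rk_win (B : Finset ℕ) {a b x : ℕ} (hax : a ≤ x) (hxb : x ≤ b) :
    rk B x = rk B a + rk (win B a b) x := by
  simp only [rk, win]
  rw [← card_union_of_disjoint]
  · congr 1
    ext y
    simp only [mem_filter, mem_union]
    constructor
    · rintro ⟨h1, h2⟩
      by_cases h : y < a
      · exact Or.inl ⟨h1, h⟩
      · exact Or.inr ⟨⟨h1, by omega, by omega⟩, h2⟩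
    · rintro (⟨h1, h2⟩ | ⟨⟨h1, _, _⟩, h2⟩)
      · exact ⟨h1, by omega⟩
      · exact ⟨h1, h2⟩
  · rw [disjoint_left]
    intro y h1 h2
    simp only [mem_filter] at h1 h2
    omega

theorem card_win (B : Finset ℕ) {a b : ℕ} (hab : a ≤ b) : rk B b = rk B a + (win B a b).card := by
  rw [rk_win B hab le_rfl]
  congr 1
  simp only [rk, win]
  congr 1
  ext y
  simp only [mem_filter]
  tauto

theorem en_win (B : Finset ℕ) (a b : ℕ) {i : ℕ} (hi : i < (win B a b).card) :
    en B (rk B a + i) = en (win B a b) i := by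
  obtain ⟨h1, h2⟩ := en_spec _ hi
  have h3 : en (win B a b) i ∈ B ∧ a ≤ en (win B a b) i ∧ en (win B a b) i < b :=
    mem_filter.1 h1
  have h4 := rk_win B (b := b) h3.2.1 h3.2.2.le
  rw [h2] at h4
  rw [← h4, en_rk B h3.1]

theorem rk_map (B : Finset ℕ) (σ : ℕ ↪ ℕ) (hσ : StrictMono σ) (x : ℕ) :
    rk (B.map σ) (σ x) = rk B x := by
  simp only [rk]
  rw [← card_map σ (s := B.filter (· < x))]
  congr 1
  ext y
  simp only [mem_filter, mem_map]
  constructor
  · rintro ⟨⟨a, ha, rfl⟩, h⟩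
    exact ⟨a, ⟨ha, hσ.lt_iff_lt.1 h⟩, rfl⟩
  · rintro ⟨a, ⟨ha, h⟩, rfl⟩
    exact ⟨⟨a, ha, rfl⟩, hσ h⟩

theorem en_map (B : Finset ℕ) (σ : ℕ ↪ ℕ) (hσ : StrictMono σ) {i : ℕ} (hi : i < B.card) :
    en (B.map σ) i = σ (en B i) := by
  obtain ⟨h1, h2⟩ := en_spec B hi
  conv_lhs => rw [← h2, ← rk_map B σ hσ]
  exact en_rk _ (mem_map_of_mem _ h1)

theorem rk_erase_le (X : Finset ℕ) {x y : ℕ} (h : y ≤ x) : rk (X.erase x) y = rk X y := by
  simp only [rk]
  congr 1
  ext a
  simp only [mem_filter, mem_erase]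
  constructor
  · rintro ⟨⟨_, h1⟩, h2⟩; exact ⟨h1, h2⟩
  · rintro ⟨h1, h2⟩; exact ⟨⟨by omega, h1⟩, h2⟩

theorem rk_erase_gt (X : Finset ℕ) {x y : ℕ} (hx : x ∈ X) (h : x < y) :
    rk (X.erase x) y + 1 = rk X y := by
  simp only [rk]
  rw [filter_erase, card_erase_add_one]
  simp [hx, h]

theorem en_erase_lt (X : Finset ℕ) {x i : ℕ} (hx : x ∈ X) (hi : i < rk X x) :
    en (X.erase x) i = en X i := by
  obtain ⟨h1, h2⟩ := en_spec X (hi.trans (rk_lt_card X hx))
  have h3 : en X i < x := by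
    by_contra hc
    have := rk_mono X (not_lt.1 hc)
    omega
  conv_lhs => rw [← h2, ← rk_erase_le X h3.le]
  exact en_rk _ (mem_erase.2 ⟨h3.ne, h1⟩)

theorem en_erase_ge (X : Finset ℕ) {x i : ℕ} (hx : x ∈ X) (hi : rk X x ≤ i) :
    en (X.erase x) i = en X (i + 1) := by
  by_cases hc : i + 1 < X.card
  · obtain ⟨h1, h2⟩ := en_spec X hc
    have h3 : x < en X (i + 1) := by
      by_contra hc
      have := rk_mono X (not_lt.1 hc)
      omega
    have h4 := rk_erase_gt X hx h3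
    have h5 : i = rk (X.erase x) (en X (i + 1)) := by omega
    conv_lhs => rw [h5]
    exact en_rk _ (mem_erase.2 ⟨h3.ne', h1⟩)
  · rw [en_zero X (not_lt.1 hc), en_zero]
    rw [card_erase_of_mem hx]; omega

theorem mem_win {B : Finset ℕ} {a b x : ℕ} : x ∈ win B a b ↔ x ∈ B ∧ a ≤ x ∧ x < b := mem_filter

theorem win_erase (X : Finset ℕ) (a b x : ℕ) : win (X.erase x) a b = (win X a b).erase x := by
  simp only [win]; rw [filter_erase]

end Pool.Agent.H169Z
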