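import Mathlib

set_option autoImplicit false

namespace Pool.Agent.H169Z

open Finset

/-- the sign of `x` with respect to `G` -/
noncomputable def chi {ι : Type*} [DecidableEq ι] (G : Finset ι) (x : ι) : ℝ :=
  if x ∈ G then 1 else -1

theorem hoeff_one {ι : Type*} [DecidableEq ι] (s : Finset ι) (w : ι → ℝ) (a V : ℝ) (ha : 0 < a)
    (hV : 0 < V) (hw : ∑ i ∈ s, w i ^ 2 ≤ V) :
    ((s.powerset.filter (fun G => a ≤ ∑ i ∈ s, w i * chi G i)).card : ℝ) ≤
      2 ^ s.card * Real.exp (-(a ^ 2 / (2 * V))) := by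
  set t := a / V with ht
  have ht0 : 0 < t := div_pos ha hV
  have h1 : ∑ G ∈ s.powerset, Real.exp (t * ∑ i ∈ s, w i * chi G i) =
      ∏ i ∈ s, (Real.exp (t * w i) + Real.exp (-(t * w i))) := by
    rw [prod_add]
    apply sum_congr rfl
    intro G hG
    have hG' : G ⊆ s := mem_powerset.1 hG
    rw [← Real.exp_sum, ← Real.exp_sum, ← Real.exp_add]
    congr 1
    rw [← sum_sdiff hG', mul_add, mul_sum, mul_sum, add_comm]
    congr 1
    · apply sum_congr rfl
      intro i hi
      simp [chi, hi]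
    · apply sum_congr rfl
      intro i hi
      simp [chi, (mem_sdiff.1 hi).2]
  have h2 : ∏ i ∈ s, (Real.exp (t * w i) + Real.exp (-(t * w i))) ≤
      ∏ i ∈ s, (2 * Real.exp ((t * w i) ^ 2 / 2)) := by
    apply prod_le_prod
    · intro i _; positivity
    · intro i _
      have := Real.cosh_le_exp_half_sq (t * w i)
      rw [Real.cosh_eq] at this
      linarith
  have h3 : ∏ i ∈ s, (2 * Real.exp ((t * w i) ^ 2 / 2)) ≤
      2 ^ s.card * Real.exp (t ^ 2 * V / 2) := by
    rw [prod_mul_distrib, prod_const, ← Real.exp_sum]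
    apply mul_le_mul_of_nonneg_left _ (by positivity)
    apply Real.exp_le_exp.2
    have : ∑ i ∈ s, (t * w i) ^ 2 / 2 = t ^ 2 * (∑ i ∈ s, w i ^ 2) / 2 := by
      rw [mul_sum, sum_div]
      apply sum_congr rfl
      intro i _; ring
    rw [this]
    have := mul_le_mul_of_nonneg_left hw (sq_nonneg t)
    linarith
  have h4 : ((s.powerset.filter (fun G => a ≤ ∑ i ∈ s, w i * chi G i)).card : ℝ) *
      Real.exp (t * a) ≤ ∑ G ∈ s.powerset, Real.exp (t * ∑ i ∈ s, w i * chi G i) := by
    rw [← nsmul_eq_mul, ← sum_const]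
    refine le_trans (sum_le_sum ?_) (sum_le_sum_of_subset_of_nonneg (filter_subset _ _) ?_)
    · intro G hG
      exact Real.exp_le_exp.2 (mul_le_mul_of_nonneg_left (mem_filter.1 hG).2 ht0.le)
    · intro G _ _; positivity
  have h5 : -(a ^ 2 / (2 * V)) = t ^ 2 * V / 2 - t * a := by
    rw [ht]; field_simp; ring
  rw [h5, Real.exp_sub, ← mul_div_assoc, le_div_iff₀ (Real.exp_pos _)]
  linarith

theorem hoeff {ι : Type*} [DecidableEq ι] (s : Finset ι) (w : ι → ℝ) (a V : ℝ) (ha : 0 < a)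
    (hV : 0 < V) (hw : ∑ i ∈ s, w i ^ 2 ≤ V) :
    ((s.powerset.filter (fun G => a ≤ |∑ i ∈ s, w i * chi G i|)).card : ℝ) ≤
      2 * (2 ^ s.card * Real.exp (-(a ^ 2 / (2 * V)))) := by
  have h1 := hoeff_one s w a V ha hV hw
  have h2 := hoeff_one s (fun i => - w i) a V ha hV (by simpa using hw)
  have h3 : s.powerset.filter (fun G => a ≤ |∑ i ∈ s, w i * chi G i|) ⊆
      s.powerset.filter (fun G => a ≤ ∑ i ∈ s, w i * chi G i) ∪
      s.powerset.filter (fun G => a ≤ ∑ i ∈ s, (- w i) * chi G i) := by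
    intro G hG
    rw [mem_filter] at hG
    rw [mem_union, mem_filter, mem_filter]
    have e : ∑ i ∈ s, (- w i) * chi G i = - ∑ i ∈ s, w i * chi G i := by
      rw [← sum_neg_distrib]; apply sum_congr rfl; intro i _; ring
    rw [e]
    rcases le_abs.1 hG.2 with h | h
    · exact Or.inl ⟨hG.1, h⟩
    · exact Or.inr ⟨hG.1, h⟩
  have h4 := (card_le_card h3).trans (card_union_le _ _)
  have h5 : ((s.powerset.filter (fun G => a ≤ |∑ i ∈ s, w i * chi G i|)).card : ℝ) ≤
      ((s.powerset.filter (fun G => a ≤ ∑ i ∈ s, w i * chi G i)).card : ℝ) +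
      ((s.powerset.filter (fun G => a ≤ ∑ i ∈ s, (- w i) * chi G i)).card : ℝ) := by
    exact_mod_cast h4
  linarith

/-- a random sign function is balanced on each of a moderate number of well spread families -/
theorem extractor {X β T : Type*} [Fintype X] [DecidableEq X] (P : Finset T)
    (F : T → Finset β) (φ : T → β → X) (M n a : ℝ) (ha : 0 < a) (hM : 0 < M) (hn : 0 < n)
    (hF : ∀ p ∈ P, ((F p).card : ℝ) ≤ n)
    (hφ : ∀ p ∈ P, ∀ x, (((F p).filter (fun b => φ p b = x)).card : ℝ) ≤ M)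
    (hsmall : (P.card : ℝ) * (2 * Real.exp (-(a ^ 2 / (2 * (M * n))))) < 1) :
    ∃ G : Finset X, ∀ p ∈ P, |∑ b ∈ F p, chi G (φ p b)| < a := by
  classical
  let w : T → X → ℝ := fun p x => (((F p).filter (fun b => φ p b = x)).card : ℝ)
  have hw : ∀ p (G : Finset X), ∑ b ∈ F p, chi G (φ p b) = ∑ x, w p x * chi G x := by
    intro p G
    rw [← sum_fiberwise (F p) (φ p)]
    apply sum_congr rfl
    intro x _
    rw [sum_congr rfl (g := fun _ => chi G x), sum_const, nsmul_eq_mul]
    intro b hb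
    rw [(mem_filter.1 hb).2]
  have hw2 : ∀ p ∈ P, ∑ x, w p x ^ 2 ≤ M * n := by
    intro p hp
    have e : ∑ x, w p x = (F p).card := by
      simp only [w]
      exact_mod_cast (card_eq_sum_card_fiberwise (f := φ p) (s := F p) (t := univ)
        (fun _ _ => mem_coe.2 (mem_univ _))).symm
    calc ∑ x, w p x ^ 2 ≤ ∑ x, M * w p x := by
          apply sum_le_sum
          intro x _
          rw [sq]
          exact mul_le_mul_of_nonneg_right (hφ p hp x) (by positivity)
      _ = M * (F p).card := by rw [← mul_sum, e]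
      _ ≤ M * n := mul_le_mul_of_nonneg_left (hF p hp) hM.le
  by_contra hc
  push Not at hc
  have h1 : (univ : Finset X).powerset ⊆ P.biUnion (fun p =>
      (univ : Finset X).powerset.filter (fun G => a ≤ |∑ x, w p x * chi G x|)) := by
    intro G hG
    obtain ⟨p, hp, h⟩ := hc G
    rw [mem_biUnion]
    exact ⟨p, hp, mem_filter.2 ⟨hG, by rw [← hw]; exact h⟩⟩
  have h2 := (card_le_card h1).trans card_biUnion_le
  have h3 : ((univ : Finset X).powerset.card : ℝ) ≤ ∑ p ∈ P,
      (((univ : Finset X).powerset.filter (fun G => a ≤ |∑ x, w p x * chi G x|)).card : ℝ) := by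
    exact_mod_cast h2
  have h4 : ∑ p ∈ P,
      (((univ : Finset X).powerset.filter (fun G => a ≤ |∑ x, w p x * chi G x|)).card : ℝ) ≤
      ∑ _p ∈ P, 2 * (2 ^ (univ : Finset X).card * Real.exp (-(a ^ 2 / (2 * (M * n))))) :=
    sum_le_sum (fun p hp => hoeff univ (w p) a (M * n) ha (mul_pos hM hn) (hw2 p hp))
  rw [sum_const, nsmul_eq_mul] at h4
  rw [card_powerset] at h3
  push_cast at h3
  have h5 : (0 : ℝ) < 2 ^ (univ : Finset X).card := by positivity
  have h6 := mul_lt_mul_of_pos_right hsmall h5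
  nlinarith

end Pool.Agent.H169Z
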