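import Pool.Agent.H169Z.Delta
import Pool.Agent.H169Z.Enum
import Pool.Agent.H169Z.Hoeff

set_option autoImplicit false

namespace Pool.Agent.H169Z

open Finset

/-- window patterns -/
abbrev Om (h L : ℕ) := Fin (h + 1) → Fin L → Bool

open Classical in
/-- the sign pattern of `z` in the window of length `L` starting at `t` -/
noncomputable def pat (h L : ℕ) (z : ℕ → ℕ) (t : ℕ) : Om h L :=
  fun l i => decide (sg l z (t + i))

/-- typical counts at the cut points -/
def Typ (m s : ℕ) (B : Finset ℕ) : Prop :=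
  ∀ i, i ≤ 48 → i * m ≤ rk B (2 * m * i) + s ∧ rk B (2 * m * i) ≤ i * m + s

/-- two different short shifts have the same pattern -/
def Bad (σ : ℕ → ℕ) (h L s : ℕ) (Z : Finset ℕ) : Prop :=
  ∃ t t', t < t' ∧ t' ≤ 2 * s ∧
    pat h L (fun i => σ (en Z i)) t = pat h L (fun i => σ (en Z i)) t'

theorem bad_per {σ : ℕ → ℕ} {h L s : ℕ} {Z : Finset ℕ} (hb : Bad σ h L s Z) :
    ∃ q, 1 ≤ q ∧ q ≤ 2 * s ∧ Per h (2 * s) L q (fun i => σ (en Z i)) := by
  obtain ⟨t, t', h1, h2, h3⟩ := hb
  refine ⟨t' - t, by omega, by omega, ?_⟩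
  intro l hl i hi hi2
  have := congrFun (congrFun h3 ⟨l, by omega⟩) ⟨i - t, by omega⟩
  simp only [pat, decide_eq_decide] at this
  rwa [show t + (i - t) = i by omega, show t' + (i - t) = i + (t' - t) by omega] at this

theorem typ_win {m s : ℕ} {B : Finset ℕ} (hB : Typ m s B) {j : ℕ} (hj : j < 12) :
    3 * m ≤ (win B (2 * m * (4 * j + 1)) (2 * m * (4 * j + 4))).card + 2 * s ∧
    m ≤ rk (win B (2 * m * (4 * j + 1)) (2 * m * (4 * j + 4))) (2 * m * (4 * j + 2)) + 2 * s ∧
    rk (win B (2 * m * (4 * j + 1)) (2 * m * (4 * j + 4))) (2 * m * (4 * j + 3)) ≤ 2 * m + 2 * s ∧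
    (win B (2 * m * (4 * j + 2)) (2 * m * (4 * j + 3))).card ≤ m + 2 * s := by
  have h1 := hB (4 * j + 1) (by omega)
  have h2 := hB (4 * j + 2) (by omega)
  have h3 := hB (4 * j + 3) (by omega)
  have h4 := hB (4 * j + 4) (by omega)
  have l12 : 2 * m * (4 * j + 1) ≤ 2 * m * (4 * j + 2) := Nat.mul_le_mul_left _ (by omega)
  have l23 : 2 * m * (4 * j + 2) ≤ 2 * m * (4 * j + 3) := Nat.mul_le_mul_left _ (by omega)
  have l34 : 2 * m * (4 * j + 3) ≤ 2 * m * (4 * j + 4) := Nat.mul_le_mul_left _ (by omega)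
  have e1 := card_win B (l12.trans (l23.trans l34))
  have e2 := rk_win B l12 (l23.trans l34)
  have e3 := rk_win B (l12.trans l23) l34
  have e4 := card_win B l23
  have r2 : (4 * j + 2) * m = (4 * j + 1) * m + m := by ring
  have r3 : (4 * j + 3) * m = (4 * j + 1) * m + 2 * m := by ring
  have r4 : (4 * j + 4) * m = (4 * j + 1) * m + 3 * m := by ring
  omega

theorem two_bad {σ : ℕ → ℕ} (hσ : StrictMono σ) {k m s h j : ℕ} (hk : 0 < k)
    (hN : ∀ i, i < 2 * k → σ i < tw h) (hm : 2 * h + 8 * s + 3 ≤ m) (hj : j < 12)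
    {X : Finset ℕ} (hX : X ⊆ range (2 * k)) {x x' : ℕ} (hx : x ∈ X) (hx' : x' ∈ X) (hxx : x < x')
    (hx1 : 2 * m * (4 * j + 2) ≤ x) (hx2 : x' < 2 * m * (4 * j + 3))
    (ht : Typ m s (X.erase x)) (ht' : Typ m s (X.erase x'))
    (hb : Bad σ h (2 * m + 2 * s + h + 2) s
      (win (X.erase x) (2 * m * (4 * j + 1)) (2 * m * (4 * j + 4))))
    (hb' : Bad σ h (2 * m + 2 * s + h + 2) s
      (win (X.erase x') (2 * m * (4 * j + 1)) (2 * m * (4 * j + 4)))) :
    rk (win X (2 * m * (4 * j + 1)) (2 * m * (4 * j + 4))) x' ≤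
      rk (win X (2 * m * (4 * j + 1)) (2 * m * (4 * j + 4))) x + (2 * s + 3) := by
  by_contra hc
  obtain ⟨q, hq1, hq2, hp⟩ := bad_per hb
  obtain ⟨q', hq1', hq2', hp'⟩ := bad_per hb'
  obtain ⟨t1, t2, -, -⟩ := typ_win ht hj
  obtain ⟨t1', -, t3', -⟩ := typ_win ht' hj
  rw [win_erase] at hp hp' t1 t2 t1' t3'
  have l12 : 2 * m * (4 * j + 1) ≤ 2 * m * (4 * j + 2) := Nat.mul_le_mul_left _ (by omega)
  have l34 : 2 * m * (4 * j + 3) ≤ 2 * m * (4 * j + 4) := Nat.mul_le_mul_left _ (by omega)
  set Y := win X (2 * m * (4 * j + 1)) (2 * m * (4 * j + 4)) with hY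
  have hxY : x ∈ Y := mem_win.2 ⟨hx, by omega, by omega⟩
  have hxY' : x' ∈ Y := mem_win.2 ⟨hx', by omega, by omega⟩
  have hYs : Y ⊆ range (2 * k) := fun y hy => hX (mem_win.1 hy).1
  have u1 : rk (Y.erase x) (2 * m * (4 * j + 2)) ≤ rk Y x := by
    rw [← rk_erase_le Y (le_refl x)]; exact rk_mono _ hx1
  have u2 : rk Y x' ≤ rk (Y.erase x') (2 * m * (4 * j + 3)) := by
    rw [← rk_erase_le Y (le_refl x')]; exact rk_mono _ hx2.le
  refine swap_lemma (fun i => σ (en (Y.erase x) i)) (fun i => σ (en (Y.erase x') i)) h (2 * s)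
    (2 * m + 2 * s + h + 2) (2 * s) q q' (rk Y x) (rk Y x' - rk Y x - 1) ?_ ?_ ?_ ?_ ?_ ?_
    hq1 hq2 hq1' hq2' hp hp' (by omega) (by omega) (by omega)
  · intro i
    exact hN _ (en_bound _ (by omega) ((erase_subset _ _).trans hYs) i)
  · intro i hi
    exact hσ (en_lt _ (Nat.lt_succ_self i) (by omega))
  · intro i hi
    exact hσ (en_lt _ (Nat.lt_succ_self i) (by omega))
  · intro i hi
    rw [en_erase_lt Y hxY hi, en_erase_lt Y hxY' (by omega)]
  · intro i hi hi2
    rw [en_erase_ge Y hxY hi, en_erase_lt Y hxY' (by omega)]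
  · intro i hi
    rw [en_erase_ge Y hxY (by omega), en_erase_ge Y hxY' (by omega)]

open Classical in
theorem bad_count {σ : ℕ → ℕ} (hσ : StrictMono σ) {k m s h j : ℕ} (hk : 48 * m ≤ k)
    (hN : ∀ i, i < 2 * k → σ i < tw h) (hm : 2 * h + 8 * s + 3 ≤ m) (hj : j < 12) :
    (((range (2 * k)).powersetCard k).filter (fun B => Typ m s B ∧
      Bad σ h (2 * m + 2 * s + h + 2) s
        (win B (2 * m * (4 * j + 1)) (2 * m * (4 * j + 4))))).card * (m - 2 * s) ≤
      (2 * k).choose k * (2 * s + 4) := by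
  set A := ((range (2 * k)).powersetCard k).filter (fun B => Typ m s B ∧
      Bad σ h (2 * m + 2 * s + h + 2) s
        (win B (2 * m * (4 * j + 1)) (2 * m * (4 * j + 4)))) with hA
  have hk0 : 0 < k := by omega
  have l23 : 2 * m * (4 * j + 3) = 2 * m * (4 * j + 2) + 2 * m := by ring
  have l3 : 2 * m * (4 * j + 3) ≤ 2 * k := by
    have : 2 * m * (4 * j + 3) ≤ 2 * m * 48 := Nat.mul_le_mul_left _ (by omega)
    omega
  have key := card_mul_le_card_mul (s := A) (t := (range (2 * k)).powersetCard (k + 1))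
    (m := m - 2 * s) (n := 2 * s + 4)
    (fun B X => ∃ x, 2 * m * (4 * j + 2) ≤ x ∧ x < 2 * m * (4 * j + 3) ∧ x ∉ B ∧ X = insert x B)
    ?_ ?_
  · refine key.trans (Nat.mul_le_mul_right _ ?_)
    rw [card_powersetCard, card_range]
    exact Nat.choose_le_centralBinom (k + 1) k
  · intro B hB
    obtain ⟨hB1, hB2, -⟩ := mem_filter.1 hB
    obtain ⟨hB3, hB4⟩ := mem_powersetCard.1 hB1
    obtain ⟨-, -, -, t4⟩ := typ_win hB2 hj
    set I := Ico (2 * m * (4 * j + 2)) (2 * m * (4 * j + 3)) with hI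
    have c1 : m - 2 * s ≤ (I \ B).card := by
      have e1 : I ∩ B = win B (2 * m * (4 * j + 2)) (2 * m * (4 * j + 3)) := by
        ext y
        simp only [hI, mem_inter, mem_Ico, mem_win]
        tauto
      have e2 := card_sdiff_add_card_inter I B
      have e3 : I.card = 2 * m := by rw [hI, Nat.card_Ico]; omega
      rw [e1] at e2
      omega
    refine c1.trans (card_le_card_of_injOn (fun x => insert x B) ?_ ?_)
    · intro x hx
      have hx' := mem_sdiff.1 (mem_coe.1 hx)
      have hx'' := mem_Ico.1 hx'.1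
      rw [mem_coe, mem_bipartiteAbove]
      refine ⟨mem_powersetCard.2 ⟨?_, ?_⟩, x, hx''.1, hx''.2, hx'.2, rfl⟩
      · exact insert_subset (mem_range.2 (by omega)) hB3
      · rw [card_insert_of_notMem hx'.2, hB4]
    · intro x hx y hy hxy
      have hx' := mem_sdiff.1 (mem_coe.1 hx)
      have h1 : x ∈ insert y B := by
        have : insert x B = insert y B := hxy
        rw [← this]; exact mem_insert_self _ _
      rcases mem_insert.1 h1 with h2 | h2
      · exact h2
      · exact absurd h2 hx'.2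
  · intro X hX
    obtain ⟨hX1, -⟩ := mem_powersetCard.1 hX
    set R := X.filter (fun x => 2 * m * (4 * j + 2) ≤ x ∧ x < 2 * m * (4 * j + 3) ∧
      X.erase x ∈ A) with hR
    have c1 : bipartiteBelow (fun B X => ∃ x, 2 * m * (4 * j + 2) ≤ x ∧ x < 2 * m * (4 * j + 3) ∧
        x ∉ B ∧ X = insert x B) A X ⊆ R.image (fun x => X.erase x) := by
      intro B hB
      rw [mem_bipartiteBelow] at hB
      obtain ⟨hB1, x, h1, h2, h3, rfl⟩ := hB
      rw [mem_image]
      refine ⟨x, mem_filter.2 ⟨mem_insert_self _ _, h1, h2, ?_⟩, erase_insert h3⟩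
      rw [erase_insert h3]; exact hB1
    refine (card_le_card c1).trans (card_image_le.trans ?_)
    rcases R.eq_empty_or_nonempty with h0 | h0
    · rw [h0]; simp
    · set Y := win X (2 * m * (4 * j + 1)) (2 * m * (4 * j + 4)) with hY
      have l12 : 2 * m * (4 * j + 1) ≤ 2 * m * (4 * j + 2) := Nat.mul_le_mul_left _ (by omega)
      have l34 : 2 * m * (4 * j + 3) ≤ 2 * m * (4 * j + 4) := Nat.mul_le_mul_left _ (by omega)
      have hRY : ∀ x ∈ R, x ∈ Y := by
        intro x hx
        obtain ⟨h1, h2, h3, -⟩ := mem_filter.1 hx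
        exact mem_win.2 ⟨h1, by omega, by omega⟩
      have hx0 := min'_mem R h0
      have c2 : R.card ≤ (Ico (rk Y (R.min' h0)) (rk Y (R.min' h0) + (2 * s + 4))).card := by
        refine card_le_card_of_injOn (rk Y) ?_ ?_
        · intro x hx
          have hx' : x ∈ R := mem_coe.1 hx
          have h1 := min'_le R x hx'
          rw [mem_coe, mem_Ico]
          refine ⟨rk_mono _ h1, ?_⟩
          rcases eq_or_lt_of_le h1 with h2 | h2
          · rw [← h2]; omega
          · obtain ⟨a1, a2, -, a4⟩ := mem_filter.1 hx0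
            obtain ⟨b1, -, b3, b4⟩ := mem_filter.1 hx'
            obtain ⟨-, a5, a6⟩ := mem_filter.1 a4
            obtain ⟨-, b5, b6⟩ := mem_filter.1 b4
            have := two_bad hσ hk0 hN hm hj hX1 a1 b1 h2 a2 b3 a5 b5 a6 b6
            rw [← hY] at this
            omega
        · intro x hx y hy hxy
          exact rk_inj Y (hRY x hx) (hRY y hy) hxy
      rw [Nat.card_Ico] at c2
      omega

theorem rk_sum {B : Finset ℕ} {n y : ℕ} (hy : y ≤ n) :
    ∑ x ∈ range n, (if x < y then (1 : ℝ) else 0) * chi B x = 2 * (rk B y : ℝ) - y := by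
  have e1 : ∑ x ∈ range n, (if x < y then (1 : ℝ) else 0) * chi B x =
      ∑ x ∈ range y, chi B x := by
    rw [← sum_subset (range_subset_range.2 hy)]
    · apply sum_congr rfl
      intro x hx
      rw [if_pos (mem_range.1 hx), one_mul]
    · intro x _ hx
      rw [if_neg (by simpa using hx), zero_mul]
  rw [e1]
  clear e1 hy
  induction y with
  | zero => simp [rk]
  | succ y ih =>
    rw [sum_range_succ, ih]
    by_cases hyB : y ∈ B
    · have : rk B (y + 1) = rk B y + 1 := by
        simp only [rk]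
        rw [← card_insert_of_notMem (a := y) (by simp)]
        congr 1
        ext a
        simp only [mem_filter, mem_insert]
        constructor
        · rintro ⟨h1, h2⟩
          by_cases h : a = y
          · exact Or.inl h
          · exact Or.inr ⟨h1, by omega⟩
        · rintro (rfl | ⟨h1, h2⟩)
          · exact ⟨hyB, by omega⟩
          · exact ⟨h1, by omega⟩
      rw [this, chi, if_pos hyB]; push_cast; ring
    · have : rk B (y + 1) = rk B y := by
        simp only [rk]
        congr 1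
        ext a
        simp only [mem_filter]
        constructor
        · rintro ⟨h1, h2⟩
          have : a ≠ y := fun h => hyB (h ▸ h1)
          exact ⟨h1, by omega⟩
        · rintro ⟨h1, h2⟩
          exact ⟨h1, by omega⟩
      rw [this, chi, if_neg hyB]; push_cast; ring

open Classical in
theorem tail_count {k m s : ℕ} (hk : 48 * m ≤ k) (hk0 : 0 < k) (hs : 0 < s) :
    ((((range (2 * k)).powerset).filter (fun B => ¬ Typ m s B)).card : ℝ) ≤
      98 * (4 ^ k * Real.exp (-((s : ℝ) ^ 2 / k))) := by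
  have c1 : ((range (2 * k)).powerset).filter (fun B => ¬ Typ m s B) ⊆
      (range 49).biUnion (fun i => ((range (2 * k)).powerset).filter (fun B =>
        2 * (s : ℝ) ≤ |∑ x ∈ range (2 * k), (if x < 2 * m * i then (1 : ℝ) else 0) * chi B x|)) := by
    intro B hB
    obtain ⟨h1, h2⟩ := mem_filter.1 hB
    simp only [Typ, not_forall] at h2
    obtain ⟨i, hi, h3⟩ := h2
    rw [mem_biUnion]
    refine ⟨i, mem_range.2 (by omega), mem_filter.2 ⟨h1, ?_⟩⟩
    have : 2 * m * i ≤ 2 * m * 48 := Nat.mul_le_mul_left _ hi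
    rw [rk_sum (by omega), le_abs]
    by_cases h4 : i * m ≤ rk B (2 * m * i) + s
    · left
      have h5 : i * m + s ≤ rk B (2 * m * i) := by omega
      have h6 : ((i * m + s : ℕ) : ℝ) ≤ rk B (2 * m * i) := by exact_mod_cast h5
      push_cast at h6 ⊢
      linarith
    · right
      have h5 : rk B (2 * m * i) + s ≤ i * m := by omega
      have h6 : ((rk B (2 * m * i) + s : ℕ) : ℝ) ≤ (i * m : ℕ) := by exact_mod_cast h5
      push_cast at h6 ⊢
      linarith
  have c2 := (card_le_card c1).trans card_biUnion_le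
  have c3 : ((((range (2 * k)).powerset).filter (fun B => ¬ Typ m s B)).card : ℝ) ≤
      ∑ i ∈ range 49, ((((range (2 * k)).powerset).filter (fun B =>
        2 * (s : ℝ) ≤ |∑ x ∈ range (2 * k),
          (if x < 2 * m * i then (1 : ℝ) else 0) * chi B x|)).card : ℝ) := by
    exact_mod_cast c2
  refine c3.trans ?_
  have hkR : (0 : ℝ) < k := by exact_mod_cast hk0
  have hsR : (0 : ℝ) < s := by exact_mod_cast hs
  have c4 : ∀ i ∈ range 49, ((((range (2 * k)).powerset).filter (fun B =>
        2 * (s : ℝ) ≤ |∑ x ∈ range (2 * k),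
          (if x < 2 * m * i then (1 : ℝ) else 0) * chi B x|)).card : ℝ) ≤
        2 * (4 ^ k * Real.exp (-((s : ℝ) ^ 2 / k))) := by
    intro i _
    have := hoeff (range (2 * k)) (fun x => if x < 2 * m * i then (1 : ℝ) else 0) (2 * s) (2 * k)
      (by positivity) (by positivity) (by
        calc ∑ x ∈ range (2 * k), (if x < 2 * m * i then (1 : ℝ) else 0) ^ 2
            ≤ ∑ x ∈ range (2 * k), (1 : ℝ) := by
              apply sum_le_sum
              intro x _
              split_ifs <;> norm_num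
          _ = 2 * k := by simp)
    rw [card_range, pow_mul] at this
    convert this using 5
    · norm_num
    · field_simp
  refine (sum_le_sum c4).trans ?_
  rw [sum_const, card_range, nsmul_eq_mul]
  push_cast
  linarith

end Pool.Agent.H169Z
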