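import Mathlib

set_option autoImplicit false

namespace Pool.Agent.H169Z

theorem dl_ex (x y : ℕ) : ∃ n, x / 2 ^ (n + 1) = y / 2 ^ (n + 1) := by
  refine ⟨x + y, ?_⟩
  have h1 : x + y < 2 ^ (x + y + 1) :=
    lt_trans (Nat.lt_succ_self _) (Nat.lt_two_pow_self)
  rw [Nat.div_eq_of_lt (by omega), Nat.div_eq_of_lt (by omega)]

/-- the highest binary digit in which `x` and `y` differ -/
def dl (x y : ℕ) : ℕ := Nat.find (dl_ex x y)

theorem dl_le_iff (x y n : ℕ) : dl x y ≤ n ↔ x / 2 ^ (n + 1) = y / 2 ^ (n + 1) := by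
  constructor
  · intro h
    have h1 : x / 2 ^ (dl x y + 1) = y / 2 ^ (dl x y + 1) := Nat.find_spec (dl_ex x y)
    obtain ⟨c, rfl⟩ := Nat.exists_eq_add_of_le h
    have e : 2 ^ (dl x y + c + 1) = 2 ^ (dl x y + 1) * 2 ^ c := by ring
    rw [e, ← Nat.div_div_eq_div_mul, ← Nat.div_div_eq_div_mul, h1]
  · intro h
    exact Nat.find_min' _ h

theorem dl_comm (x y : ℕ) : dl x y = dl y x := by
  apply le_antisymm
  · rw [dl_le_iff]; exact ((dl_le_iff y x _).1 le_rfl).symm
  · rw [dl_le_iff]; exact ((dl_le_iff x y _).1 le_rfl).symm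

theorem dl_lt {x y n : ℕ} (hn : 1 ≤ n) (hx : x < 2 ^ n) (hy : y < 2 ^ n) : dl x y < n := by
  obtain ⟨c, rfl⟩ : ∃ c, n = c + 1 := ⟨n - 1, by omega⟩
  have : dl x y ≤ c := by
    rw [dl_le_iff, Nat.div_eq_of_lt hx, Nat.div_eq_of_lt hy]
  omega

theorem dl_max {x y z : ℕ} (hxy : x ≤ y) (hyz : y ≤ z) : dl x z = max (dl x y) (dl y z) := by
  have key : ∀ n, dl x z ≤ n ↔ max (dl x y) (dl y z) ≤ n := by
    intro n
    rw [max_le_iff, dl_le_iff, dl_le_iff, dl_le_iff]
    have h1 : x / 2 ^ (n + 1) ≤ y / 2 ^ (n + 1) := Nat.div_le_div_right hxy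
    have h2 : y / 2 ^ (n + 1) ≤ z / 2 ^ (n + 1) := Nat.div_le_div_right hyz
    omega
  exact le_antisymm ((key _).2 le_rfl) ((key _).1 le_rfl)

theorem dl_div_ne {x y : ℕ} (hxy : x ≠ y) : x / 2 ^ (dl x y) ≠ y / 2 ^ (dl x y) := by
  rcases Nat.eq_zero_or_pos (dl x y) with h | h
  · rw [h]; simpa using hxy
  · obtain ⟨c, hc⟩ : ∃ c, dl x y = c + 1 := ⟨dl x y - 1, by omega⟩
    intro h1
    rw [hc] at h1
    have := (dl_le_iff x y c).2 h1
    omega

theorem dl_ne {x y z : ℕ} (hxy : x < y) (hyz : y < z) : dl x y ≠ dl y z := by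
  intro h
  have h1 := dl_div_ne hxy.ne
  have h2 := dl_div_ne hyz.ne
  have h3 := (dl_le_iff x y _).1 le_rfl
  have h4 := (dl_le_iff y z _).1 le_rfl
  rw [← h] at h2 h4
  set n := dl x y
  have h5 : x / 2 ^ n ≤ y / 2 ^ n := Nat.div_le_div_right hxy.le
  have h6 : y / 2 ^ n ≤ z / 2 ^ n := Nat.div_le_div_right hyz.le
  rw [pow_succ, ← Nat.div_div_eq_div_mul, ← Nat.div_div_eq_div_mul] at h3 h4
  omega

theorem dl_max' {x y z : ℕ} (hxy : y ≤ x) (hyz : z ≤ y) : dl x z = max (dl x y) (dl y z) := by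
  rw [dl_comm x z, dl_max hyz hxy, max_comm, dl_comm y x, dl_comm z y]

theorem dl_ne' {x y z : ℕ} (hxy : y < x) (hyz : z < y) : dl x y ≠ dl y z := by
  rw [dl_comm x y, dl_comm y z]; exact (dl_ne hyz hxy).symm

/-- the iterated array of highest differing digits -/
def arr : ℕ → (ℕ → ℕ) → ℕ → ℕ
  | 0, z, i => z i
  | l + 1, z, i => dl (arr l z i) (arr l z (i + 1))

theorem arr_local (l : ℕ) (z z' : ℕ → ℕ) :
    ∀ a a' : ℕ, (∀ j, j ≤ l → z (a + j) = z' (a' + j)) → arr l z a = arr l z' a' := by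
  induction l with
  | zero => intro a a' h; simpa [arr] using h 0 le_rfl
  | succ l ih =>
    intro a a' h
    simp only [arr]
    rw [ih a a' (fun j hj => h j (by omega)), ih (a + 1) (a' + 1) (fun j hj => by
      have := h (j + 1) (by omega)
      rwa [show a + (j + 1) = a + 1 + j by ring, show a' + (j + 1) = a' + 1 + j by ring] at this)]

/-- the tower function -/
def tw (n : ℕ) : ℕ := (fun n : ℕ => 2 ^ n)^[n] 1

theorem tw_succ (n : ℕ) : tw (n + 1) = 2 ^ tw n := by
  simp only [tw]; rw [Function.iterate_succ_apply']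

theorem tw_pos (n : ℕ) : 1 ≤ tw n := by
  cases n with
  | zero => simp [tw]
  | succ n => rw [tw_succ]; exact Nat.one_le_two_pow

theorem arr_lt (z : ℕ → ℕ) (l : ℕ) : ∀ m, (∀ i, z i < tw (l + m)) → ∀ i, arr l z i < tw m := by
  induction l with
  | zero => intro m h i; simpa [arr] using h i
  | succ l ih =>
    intro m h i
    have h1 := ih (m + 1) (fun i => by have := h i; rwa [show l + 1 + m = l + (m + 1) by ring] at this)
    simp only [arr]
    apply dl_lt (tw_pos m)
    · rw [← tw_succ]; exact h1 i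
    · rw [← tw_succ]; exact h1 (i + 1)

/-- the sign pattern -/
def sg (l : ℕ) (z : ℕ → ℕ) (i : ℕ) : Prop := arr l z i < arr l z (i + 1)

/-- periodicity of the sign pattern on a range -/
def Per (h α β q : ℕ) (z : ℕ → ℕ) : Prop :=
  ∀ l, l ≤ h → ∀ i, α ≤ i → i + q < β → (sg l z i ↔ sg l z (i + q))

theorem two_periods (σ σ' : ℕ → Prop) (α β q q' : ℕ) (hq : 1 ≤ q) (hq' : 1 ≤ q')
    (hp : ∀ i, α ≤ i → i + q < β → (σ i ↔ σ (i + q)))
    (hp' : ∀ i, α ≤ i → i + q' < β → (σ' i ↔ σ' (i + q')))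
    (hl : ∀ i, α ≤ i → i < α + q + q' → (σ' i ↔ σ i)) :
    ∀ i, α ≤ i → i < β → (σ' i ↔ σ i) := by
  intro i
  induction i using Nat.strong_induction_on with
  | _ i ih =>
    intro h1 h2
    by_cases hc : i < α + q + q'
    · exact hl i h1 hc
    · obtain ⟨j, rfl⟩ : ∃ j, i = j + q + q' := ⟨i - q - q', by omega⟩
      have e1 := hp (j + q') (by omega) (by omega)
      have e2 := ih (j + q') (by omega) (by omega) (by omega)
      have e3 := hp' j (by omega) (by omega)
      have e4 := ih j (by omega) (by omega) (by omega)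
      have e5 := hp j (by omega) (by omega)
      have e6 := ih (j + q) (by omega) (by omega) (by omega)
      have e7 := hp' (j + q) (by omega) (by omega)
      rw [show j + q' + q = j + q + q' by ring] at e1
      tauto

theorem const_of_period (σ : ℕ → Prop) (α β q ρ : ℕ) (hq : 1 ≤ q) (hρ : α ≤ ρ) (hβ : ρ + q < β)
    (hp : ∀ i, α ≤ i → i + q < β → (σ i ↔ σ (i + q)))
    (hc : ∀ i, ρ ≤ i → i + 1 < ρ + q → (σ (i + 1) ↔ σ i)) :
    ∀ i, α ≤ i → i < β → (σ i ↔ σ ρ) := by
  have h1 : ∀ t, t < q → (σ (ρ + t) ↔ σ ρ) := by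
    intro t
    induction t with
    | zero => intro _; rfl
    | succ t ih =>
      intro ht
      have := hc (ρ + t) (by omega) (by omega)
      rw [← add_assoc, this]; exact ih (by omega)
  have h2 : ∀ i, ρ ≤ i → i < β → (σ i ↔ σ ρ) := by
    intro i
    induction i using Nat.strong_induction_on with
    | _ i ih =>
      intro hi hi2
      by_cases hcase : i < ρ + q
      · have := h1 (i - ρ) (by omega)
        rwa [show ρ + (i - ρ) = i by omega] at this
      · obtain ⟨j, rfl⟩ : ∃ j, i = j + q := ⟨i - q, by omega⟩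
        rw [← hp j (by omega) hi2]
        exact ih j (by omega) (by omega) (by omega)
  have h3 : ∀ t i, α ≤ i → i < β → ρ ≤ i + t → (σ i ↔ σ ρ) := by
    intro t
    induction t with
    | zero => intro i _ hi2 hi; exact h2 i (by omega) hi2
    | succ t ih =>
      intro i hi1 hi2 hi
      by_cases hcase : ρ ≤ i
      · exact h2 i hcase hi2
      · rw [hp i hi1 (by omega)]
        exact ih (i + q) (by omega) (by omega) (by omega)
  intro i hi1 hi2
  exact h3 ρ i hi1 hi2 (by omega)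

/-- Two sequences that differ by moving one point across a long stretch cannot both have a
periodic sign pattern with short periods. -/
theorem swap_lemma (z z' : ℕ → ℕ) (h α β s q q' r g : ℕ)
    (hz : ∀ i, z i < tw h)
    (hm : ∀ i, i < β → z i < z (i + 1)) (hm' : ∀ i, i < β → z' i < z' (i + 1))
    (h1 : ∀ i, i < r → z' i = z i) (h2 : ∀ i, r ≤ i → i < r + g → z' (i + 1) = z i)
    (h3 : ∀ i, r + g < i → z' i = z i)
    (hq : 1 ≤ q) (hqs : q ≤ s) (hq' : 1 ≤ q') (hqs' : q' ≤ s)
    (hp : Per h α β q z) (hp' : Per h α β q' z')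
    (hr : α + h + 2 * s + 2 ≤ r) (hβ : r + g + h + 3 ≤ β) (hg : s + 3 ≤ g) : False := by
  have inv : ∀ l, l ≤ h → ∃ ρ, r ≤ ρ + l ∧ ρ ≤ r ∧ (∀ i, i < ρ → arr l z' i = arr l z i) ∧
      (∀ i, ρ ≤ i → i < ρ + g → arr l z' (i + 1) = arr l z i) ∧
      (∀ i, ρ + g < i → arr l z' i = arr l z i) ∧
      ((∀ i, α ≤ i → i + l < β → arr l z i < arr l z (i + 1) ∧ arr l z' i < arr l z' (i + 1)) ∨
       (∀ i, α ≤ i → i + l < β → arr l z (i + 1) < arr l z i ∧ arr l z' (i + 1) < arr l z' i)) := by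
    intro l
    induction l with
    | zero =>
      intro _
      exact ⟨r, by omega, le_rfl, h1, h2, h3,
        Or.inl (fun i _ hi => ⟨hm i (by omega), hm' i (by omega)⟩)⟩
    | succ l ih =>
      intro hl
      obtain ⟨ρ, hρ1, hρ2, a1, a2, a3, a4⟩ := ih (by omega)
      have b1 : ∀ i, i + 1 < ρ → arr (l + 1) z' i = arr (l + 1) z i := by
        intro i hi
        simp only [arr]; rw [a1 i (by omega), a1 (i + 1) hi]
      have b2 : ∀ i, ρ ≤ i → i + 1 < ρ + g → arr (l + 1) z' (i + 1) = arr (l + 1) z i := by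
        intro i hi hi2
        simp only [arr]; rw [a2 i hi (by omega), a2 (i + 1) (by omega) hi2]
      have b3 : ∀ i, ρ + g < i → arr (l + 1) z' i = arr (l + 1) z i := by
        intro i hi
        simp only [arr]; rw [a3 i hi, a3 (i + 1) (by omega)]
      have c1 : ∀ i, α ≤ i → i < β → (sg (l + 1) z' i ↔ sg (l + 1) z i) := by
        apply two_periods _ _ α β q q' hq hq' (hp _ hl) (hp' _ hl)
        intro i _ hi
        simp only [sg]
        rw [b1 i (by omega), b1 (i + 1) (by omega)]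
      have c2 : ∀ i, α ≤ i → i < β → (sg (l + 1) z i ↔ sg (l + 1) z ρ) := by
        apply const_of_period _ α β q ρ hq (by omega) (by omega) (hp _ hl)
        intro i hi hi2
        rw [← c1 (i + 1) (by omega) (by omega)]
        simp only [sg]
        rw [b2 i hi (by omega), b2 (i + 1) (by omega) (by omega)]
      have d1 : ∀ i, α ≤ i → i + (l + 1) < β → arr (l + 1) z i ≠ arr (l + 1) z (i + 1) ∧
          arr (l + 1) z' i ≠ arr (l + 1) z' (i + 1) := by
        intro i hi hi2
        simp only [arr]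
        rcases a4 with a4 | a4
        · exact ⟨dl_ne (a4 i hi (by omega)).1 (a4 (i + 1) (by omega) (by omega)).1,
            dl_ne (a4 i hi (by omega)).2 (a4 (i + 1) (by omega) (by omega)).2⟩
        · exact ⟨dl_ne' (a4 i hi (by omega)).1 (a4 (i + 1) (by omega) (by omega)).1,
            dl_ne' (a4 i hi (by omega)).2 (a4 (i + 1) (by omega) (by omega)).2⟩
      obtain ⟨ρ0, rfl⟩ : ∃ ρ0, ρ = ρ0 + 1 := ⟨ρ - 1, by omega⟩
      obtain ⟨g0, rfl⟩ : ∃ g0, g = g0 + 1 := ⟨g - 1, by omega⟩
      have e1 : arr (l + 1) z ρ0 = max (arr (l + 1) z' ρ0) (arr (l + 1) z' (ρ0 + 1)) := by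
        simp only [arr]
        rw [← a1 ρ0 (by omega), ← a2 (ρ0 + 1) le_rfl (by omega)]
        rcases a4 with a4 | a4
        · exact dl_max (a4 ρ0 (by omega) (by omega)).2.le (a4 (ρ0 + 1) (by omega) (by omega)).2.le
        · exact dl_max' (a4 ρ0 (by omega) (by omega)).2.le (a4 (ρ0 + 1) (by omega) (by omega)).2.le
      have e2 : arr (l + 1) z' (ρ0 + 1 + g0 + 1) =
          max (arr (l + 1) z (ρ0 + 1 + g0)) (arr (l + 1) z (ρ0 + 1 + g0 + 1)) := by
        simp only [arr]
        rw [a2 (ρ0 + 1 + g0) (by omega) (by omega), a3 (ρ0 + 1 + g0 + 1 + 1) (by omega)]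
        rcases a4 with a4 | a4
        · exact dl_max (a4 _ (by omega) (by omega)).1.le (a4 _ (by omega) (by omega)).1.le
        · exact dl_max' (a4 _ (by omega) (by omega)).1.le (a4 _ (by omega) (by omega)).1.le
      by_cases hs : sg (l + 1) z (ρ0 + 1)
      · have f1 : ∀ i, α ≤ i → i + (l + 1) < β → arr (l + 1) z i < arr (l + 1) z (i + 1) ∧
            arr (l + 1) z' i < arr (l + 1) z' (i + 1) := by
          intro i hi hi2
          have t1 := (c2 i hi (by omega)).2 hs
          exact ⟨t1, (c1 i hi (by omega)).2 t1⟩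
        refine ⟨ρ0, by omega, by omega, fun i hi => b1 i (by omega), ?_, ?_, Or.inl f1⟩
        · intro i hi hi2
          rcases Nat.eq_or_lt_of_le hi with rfl | hi'
          · rw [e1, max_eq_right (f1 ρ0 (by omega) (by omega)).2.le]
          · exact b2 i hi' (by omega)
        · intro i hi
          by_cases hi' : i = ρ0 + 1 + g0 + 1
          · rw [hi', e2, max_eq_right (f1 _ (by omega) (by omega)).1.le]
          · exact b3 i (by omega)
      · have f1 : ∀ i, α ≤ i → i + (l + 1) < β → arr (l + 1) z (i + 1) < arr (l + 1) z i ∧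
            arr (l + 1) z' (i + 1) < arr (l + 1) z' i := by
          intro i hi hi2
          have t1 : ¬ sg (l + 1) z i := fun t => hs ((c2 i hi (by omega)).1 t)
          have t2 : ¬ sg (l + 1) z' i := fun t => t1 ((c1 i hi (by omega)).1 t)
          have t3 := d1 i hi hi2
          simp only [sg] at t1 t2
          omega
        refine ⟨ρ0 + 1, by omega, by omega, ?_, ?_, b3, Or.inr f1⟩
        · intro i hi
          by_cases hi' : i = ρ0
          · rw [hi', e1, max_eq_left (f1 ρ0 (by omega) (by omega)).2.le]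
          · exact b1 i (by omega)
        · intro i hi hi2
          by_cases hi' : i = ρ0 + 1 + g0
          · rw [hi', e2, max_eq_left (f1 _ (by omega) (by omega)).1.le]
          · exact b2 i hi (by omega)
  obtain ⟨ρ, -, -, -, -, -, a4⟩ := inv h le_rfl
  have k1 := arr_lt z h 0 (by simpa using hz)
  have k2 : tw 0 = 1 := rfl
  have k3 := k1 α
  have k4 := k1 (α + 1)
  rcases a4 with a4 | a4
  · have := (a4 α le_rfl (by omega)).1; omega
  · have := (a4 α le_rfl (by omega)).1; omega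

end Pool.Agent.H169Z
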