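import Pool.Agent.H169Z.Main

set_option autoImplicit false

namespace Pool.Agent.H169Z

open Finset

theorem asym (δ : ℝ) (hδ : 0 < δ) : ∃ k₀ : ℕ, ∀ k : ℕ, k₀ ≤ k → ∀ h : ℕ, 400 * h ≤ k →
    ∃ F : Finset ℕ → Bool, ∀ σ : ℕ ↪ ℕ, StrictMono σ → (∀ i, i < 2 * k → σ i < tw h) →
      |∑ B ∈ (range (2 * k)).powersetCard k, (if F (B.map σ) then (1 : ℝ) else -1)| ≤
        δ * ((2 * k).choose k : ℝ) := by
  classical
  obtain ⟨K, hK⟩ := exists_nat_gt (2000 + 21600 / δ)
  have hK0 : (0 : ℝ) < 21600 / δ := by positivity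
  have hK1 : 2000 ≤ K := by
    have : (2000 : ℝ) ≤ K := by linarith
    exact_mod_cast this
  have hKR : (0 : ℝ) < K := by linarith
  obtain ⟨k₀, hk₀⟩ := exists_nat_gt (K + 18816 * (K : ℝ) ^ 4 / δ + 1080 * 50 ^ 6 / δ ^ 2)
  refine ⟨k₀, fun k hk h hh => ?_⟩
  have hkk : (k₀ : ℝ) ≤ k := by exact_mod_cast hk
  have p1 : (0 : ℝ) < 18816 * (K : ℝ) ^ 4 / δ := by positivity
  have p2 : (0 : ℝ) < 1080 * 50 ^ 6 / δ ^ 2 := by positivity
  have hKk : K ≤ k := by
    have : (K : ℝ) ≤ k := by linarith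
    exact_mod_cast this
  have hKkR : (K : ℝ) ≤ k := by exact_mod_cast hKk
  have hkR : (0 : ℝ) < k := by linarith
  obtain ⟨s, hs⟩ : ∃ s, s = k / K := ⟨_, rfl⟩
  obtain ⟨m, hm⟩ : ∃ m, m = k / 48 := ⟨_, rfl⟩
  have s1 : s * K ≤ k := by rw [hs]; exact Nat.div_mul_le_self _ _
  have s2 : 0 < s := by rw [hs]; exact Nat.div_pos hKk (by omega)
  have s3 : k ≤ 2 * (s * K) := by
    have e1 := Nat.div_add_mod k K
    have e2 := Nat.mod_lt k (show K > 0 by omega)
    rw [← hs] at e1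
    have : K ≤ s * K := Nat.le_mul_of_pos_left _ s2
    rw [mul_comm K s] at e1
    omega
  have s4 : 1000 * s ≤ k := le_trans (by nlinarith) s1
  have s1R : (s : ℝ) * K ≤ k := by exact_mod_cast s1
  have s3R : (k : ℝ) ≤ 2 * (s * K) := by exact_mod_cast s3
  have hC : (4 : ℝ) ^ k ≤ 2 * k * ((2 * k).choose k : ℝ) := by
    have := Nat.four_pow_le_two_mul_self_mul_centralBinom k (by omega)
    rw [Nat.centralBinom_eq_two_mul_choose] at this
    exact_mod_cast this
  have hCpos : (0 : ℝ) ≤ ((2 * k).choose k : ℝ) := by positivity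
  obtain ⟨G, hG⟩ := finite_main (k := k) (m := m) (s := s) (h := h) (by omega) (by omega) s2
    (θ := δ / (6 * k)) (by positivity) (by
      have e1 : 72 * m + 12 * ((2 * s + 1) * ((h + 1) * (2 * m + 2 * s + h + 2))) + 1 ≤
          15 * k ^ 3 := by
        have a1 : (2 * s + 1) * ((h + 1) * (2 * m + 2 * s + h + 2)) ≤ k * (k * k) :=
          Nat.mul_le_mul (by omega) (Nat.mul_le_mul (by omega) (by omega))
        have a2 : k ≤ k * (k * k) := Nat.le_mul_of_pos_right _ (Nat.mul_pos (by omega) (by omega))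
        have a3 : k ^ 3 = k * (k * k) := by ring
        omega
      have e2 : (2 : ℝ) ^ (72 * m) *
          2 ^ (12 * ((2 * s + 1) * ((h + 1) * (2 * m + 2 * s + h + 2)))) * 2 ≤
          Real.exp (15 * (k : ℝ) ^ 3) := by
        rw [← pow_add, ← pow_succ]
        calc (2 : ℝ) ^ (72 * m + 12 * ((2 * s + 1) * ((h + 1) * (2 * m + 2 * s + h + 2))) + 1)
            ≤ 2 ^ (15 * k ^ 3) := pow_le_pow_right₀ (by norm_num) e1
          _ ≤ Real.exp 1 ^ (15 * k ^ 3) := by
              apply pow_le_pow_left₀ (by norm_num)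
              have := Real.add_one_le_exp 1
              linarith
          _ = Real.exp (15 * (k : ℝ) ^ 3) := by
              rw [← Real.exp_nat_mul]; push_cast; ring_nf
      have e3 : 15 * (k : ℝ) ^ 3 < (δ / (6 * k)) ^ 2 * m ^ 6 / 2 := by
        have a1 : k ≤ 50 * m := by omega
        have a2 : (k : ℝ) / 50 ≤ m := by
          have : (k : ℝ) ≤ 50 * m := by exact_mod_cast a1
          linarith
        have a3 : ((k : ℝ) / 50) ^ 6 ≤ (m : ℝ) ^ 6 := pow_le_pow_left₀ (by positivity) a2 6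
        have a4 : 1080 * 50 ^ 6 / δ ^ 2 < k := by linarith
        rw [div_lt_iff₀ (by positivity)] at a4
        have a5 : (δ / (6 * k)) ^ 2 * ((k : ℝ) / 50) ^ 6 / 2 =
            (k : ℝ) ^ 3 * (k * δ ^ 2) / (72 * 50 ^ 6) := by
          field_simp; ring
        have a6 : 15 * (k : ℝ) ^ 3 < (k : ℝ) ^ 3 * (k * δ ^ 2) / (72 * 50 ^ 6) := by
          rw [lt_div_iff₀ (by positivity)]
          have := mul_lt_mul_of_pos_left a4 (show (0 : ℝ) < (k : ℝ) ^ 3 by positivity)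
          linarith
        have a7 := mul_le_mul_of_nonneg_left a3 (sq_nonneg (δ / (6 * k)))
        linarith
      rw [← mul_assoc]
      calc _ ≤ Real.exp (15 * (k : ℝ) ^ 3) * Real.exp (-((δ / (6 * k)) ^ 2 * m ^ 6 / 2)) :=
            mul_le_mul_of_nonneg_right e2 (Real.exp_pos _).le
        _ < 1 := by
            rw [← Real.exp_add, Real.exp_lt_one_iff]; linarith)
  refine ⟨fun A => decide (Phi m s h A ∈ G), fun σ hσ hN => ?_⟩
  have h0 := hG σ hσ hN
  simp only [chi] at h0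
  simp only [decide_eq_true_eq]
  refine h0.trans ?_
  have b1 : δ / (6 * k) * 4 ^ k ≤ δ / 3 * ((2 * k).choose k : ℝ) := by
    calc δ / (6 * k) * 4 ^ k ≤ δ / (6 * k) * (2 * k * ((2 * k).choose k : ℝ)) :=
          mul_le_mul_of_nonneg_left hC (by positivity)
      _ = _ := by field_simp; ring
  have b2 : 12 * ((2 * (s : ℝ) + 4) / (m - 2 * s) * ((2 * k).choose k : ℝ)) ≤
      δ / 3 * ((2 * k).choose k : ℝ) := by
    rw [← mul_assoc]
    apply mul_le_mul_of_nonneg_right _ hCpos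
    have a1 : k + 200 * s ≤ 100 * m := by omega
    have a2 : (k : ℝ) + 200 * s ≤ 100 * m := by exact_mod_cast a1
    have a3 : (2 * (s : ℝ) + 4) * K ≤ 6 * k := by linarith
    have a4 : 21600 / δ < K := by linarith
    rw [div_lt_iff₀ hδ] at a4
    rw [← mul_div_assoc, div_le_iff₀ (by linarith)]
    have a5 : 12 * (2 * (s : ℝ) + 4) * K ≤ (δ / 3 * (k / 100)) * K := by nlinarith
    have a6 : 12 * (2 * (s : ℝ) + 4) ≤ δ / 3 * (k / 100) := le_of_mul_le_mul_right a5 hKR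
    refine a6.trans (mul_le_mul_of_nonneg_left (by linarith) (by positivity))
  have b3 : 98 * (4 ^ k * Real.exp (-((s : ℝ) ^ 2 / k))) ≤ δ / 3 * ((2 * k).choose k : ℝ) := by
    have a1 : (k : ℝ) / (4 * K ^ 2) ≤ (s : ℝ) ^ 2 / k := by
      rw [div_le_div_iff₀ (by positivity) hkR]
      have := mul_le_mul s3R s3R hkR.le (by positivity)
      nlinarith
    have a2 : Real.exp (-((s : ℝ) ^ 2 / k)) ≤ Real.exp (-((k : ℝ) / (4 * K ^ 2))) :=
      Real.exp_le_exp.2 (by linarith)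
    have a3 : ((k : ℝ) / (4 * K ^ 2)) ^ 2 / 2 ≤ Real.exp ((k : ℝ) / (4 * K ^ 2)) := by
      have := Real.quadratic_le_exp_of_nonneg (x := (k : ℝ) / (4 * K ^ 2)) (by positivity)
      have h2 : (0 : ℝ) ≤ (k : ℝ) / (4 * K ^ 2) := by positivity
      linarith
    have a4 : Real.exp (-((k : ℝ) / (4 * K ^ 2))) ≤ 32 * K ^ 4 / k ^ 2 := by
      rw [Real.exp_neg, inv_le_comm₀ (Real.exp_pos _) (by positivity)]
      refine le_trans (le_of_eq ?_) a3
      field_simp; ring
    have a5 : 18816 * (K : ℝ) ^ 4 / δ < k := by linarith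
    rw [div_lt_iff₀ hδ] at a5
    have a6 : 196 * k * (32 * (K : ℝ) ^ 4 / k ^ 2) ≤ δ / 3 := by
      have : 196 * k * (32 * (K : ℝ) ^ 4 / k ^ 2) = 6272 * (K : ℝ) ^ 4 / k := by
        field_simp; ring
      rw [this, div_le_iff₀ hkR]
      linarith
    calc 98 * (4 ^ k * Real.exp (-((s : ℝ) ^ 2 / k)))
        ≤ 98 * ((2 * k * ((2 * k).choose k : ℝ)) * (32 * K ^ 4 / k ^ 2)) := by
          apply mul_le_mul_of_nonneg_left _ (by norm_num)
          exact mul_le_mul hC (a2.trans a4) (Real.exp_pos _).le (by positivity)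
      _ = (196 * k * (32 * (K : ℝ) ^ 4 / k ^ 2)) * ((2 * k).choose k : ℝ) := by ring
      _ ≤ _ := mul_le_mul_of_nonneg_right a6 hCpos
  linarith

theorem exists_sigma {N n : ℕ} (S : Finset (Fin N)) (hS : S.card = n) :
    ∃ σ : ℕ ↪ ℕ, StrictMono σ ∧ (∀ i, i < n → σ i < N) ∧
      (range n).map σ = S.map Fin.valEmbedding := by
  set T := S.map Fin.valEmbedding with hT
  have hc : T.card = n := by rw [hT, card_map, hS]
  have hlt : ∀ x ∈ T, x < N := by
    intro x hx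
    obtain ⟨a, -, rfl⟩ := mem_map.1 hx
    exact a.2
  have hlt' : ∀ i, i < n → en T i < N := fun i hi => hlt _ (en_spec T (by omega)).1
  let f : ℕ → ℕ := fun i => if i < n then en T i else N + i
  have hf : StrictMono f := by
    intro i j hij
    simp only [f]
    by_cases hj : j < n
    · rw [if_pos hj, if_pos (hij.trans hj)]
      exact en_lt T hij (by omega)
    · rw [if_neg hj]
      by_cases hi : i < n
      · rw [if_pos hi]; have := hlt' i hi; omega
      · rw [if_neg hi]; omega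
  refine ⟨⟨f, hf.injective⟩, hf, ?_, ?_⟩
  · intro i hi
    show f i < N
    simp only [f]; rw [if_pos hi]; exact hlt' i hi
  · apply eq_of_subset_of_card_le
    · intro x hx
      obtain ⟨i, hi, rfl⟩ := mem_map.1 hx
      have hi' := mem_range.1 hi
      show f i ∈ T
      simp only [f]; rw [if_pos hi']
      exact (en_spec T (by omega)).1
    · rw [hc, card_map, card_range]

theorem final : ∃ ε : ℝ, 0 < ε ∧ ∀ δ : ℝ, 0 < δ → ∃ k₀ : ℕ, ∀ k : ℕ, k₀ ≤ k →
      ∀ N : ℕ, N ≤ (fun n : ℕ => 2 ^ n)^[⌊ε * (k : ℝ)⌋₊] 1 →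
        ∃ γ : Finset (Fin N) → Bool, ∀ S : Finset (Fin N), S.card = 2 * k →
          |∑ T ∈ S.powersetCard k, (if γ T then (1 : ℝ) else -1)|
            ≤ δ * ((Nat.choose (2 * k) k : ℕ) : ℝ) := by
  refine ⟨1 / 400, by norm_num, fun δ hδ => ?_⟩
  obtain ⟨k₀, hk₀⟩ := asym δ hδ
  refine ⟨k₀, fun k hk N hN => ?_⟩
  have hh : 400 * ⌊(1 / 400 : ℝ) * k⌋₊ ≤ k := by
    have h1 : (⌊(1 / 400 : ℝ) * k⌋₊ : ℝ) ≤ 1 / 400 * k := Nat.floor_le (by positivity)
    have h2 : ((400 * ⌊(1 / 400 : ℝ) * k⌋₊ : ℕ) : ℝ) ≤ k := by push_cast; linarith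
    exact_mod_cast h2
  obtain ⟨F, hF⟩ := hk₀ k hk _ hh
  refine ⟨fun T => F (T.map Fin.valEmbedding), fun S hS => ?_⟩
  obtain ⟨σ, h1, h2, h3⟩ := exists_sigma S hS
  have h4 := hF σ h1 (fun i hi => lt_of_lt_of_le (h2 i hi) hN)
  have h5 : ∑ T ∈ S.powersetCard k, (if F (T.map Fin.valEmbedding) then (1 : ℝ) else -1) =
      ∑ A ∈ (S.map Fin.valEmbedding).powersetCard k, (if F A then (1 : ℝ) else -1) := by
    rw [powersetCard_map, sum_map]; rfl
  have h6 : ∑ B ∈ (range (2 * k)).powersetCard k, (if F (B.map σ) then (1 : ℝ) else -1) =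
      ∑ A ∈ ((range (2 * k)).map σ).powersetCard k, (if F A then (1 : ℝ) else -1) := by
    rw [powersetCard_map, sum_map]; rfl
  rw [h5, ← h3, ← h6]
  exact h4

end Pool.Agent.H169Z
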