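import Pool.Agent.H169Z.Count

set_option autoImplicit false

namespace Pool.Agent.H169Z

open Finset

/-- the union of the twelve windows -/
def Wset (m : ℕ) : Finset ℕ :=
  (range 12).biUnion (fun j => Ico (2 * m * (4 * j + 1)) (2 * m * (4 * j + 4)))

theorem mem_Wset {m x : ℕ} :
    x ∈ Wset m ↔ ∃ j, j < 12 ∧ 2 * m * (4 * j + 1) ≤ x ∧ x < 2 * m * (4 * j + 4) := by
  simp only [Wset, mem_biUnion, mem_range, mem_Ico]

theorem card_Wset (m : ℕ) : (Wset m).card ≤ 72 * m := by
  refine card_biUnion_le.trans ?_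
  have : ∀ j ∈ range 12, (Ico (2 * m * (4 * j + 1)) (2 * m * (4 * j + 4))).card ≤ 6 * m := by
    intro j _
    rw [Nat.card_Ico]
    have : 2 * m * (4 * j + 4) = 2 * m * (4 * j + 1) + 6 * m := by ring
    omega
  refine (sum_le_sum this).trans ?_
  rw [sum_const, card_range, smul_eq_mul]; omega

theorem win_inter (B : Finset ℕ) {m j : ℕ} (hj : j < 12) :
    win (B ∩ Wset m) (2 * m * (4 * j + 1)) (2 * m * (4 * j + 4)) =
      win B (2 * m * (4 * j + 1)) (2 * m * (4 * j + 4)) := by
  ext x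
  simp only [mem_win, mem_inter, mem_Wset]
  constructor
  · rintro ⟨⟨h1, _⟩, h2⟩; exact ⟨h1, h2⟩
  · rintro ⟨h1, h2⟩; exact ⟨⟨h1, j, hj, h2⟩, h2⟩

/-- the parts of a set outside the windows -/
def parts (m k : ℕ) (B : Finset ℕ) : (Fin 12 → Finset ℕ) × Finset ℕ :=
  (fun j => win B (2 * m * (4 * j)) (2 * m * (4 * j + 1)), win B (96 * m) (2 * k))

theorem parts_inj {m k : ℕ} (hm : 0 < m) {B B' : Finset ℕ} (hB : B ⊆ range (2 * k))
    (hB' : B' ⊆ range (2 * k)) (hW : B ∩ Wset m = B' ∩ Wset m)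
    (hp : parts m k B = parts m k B') : B = B' := by
  have key : ∀ B B' : Finset ℕ, B ⊆ range (2 * k) → B ∩ Wset m = B' ∩ Wset m →
      parts m k B = parts m k B' → B ⊆ B' := by
    intro B B' hB hW hp x hx
    have hx2 := mem_range.1 (hB hx)
    by_cases h1 : 96 * m ≤ x
    · have h2 : x ∈ (parts m k B).2 := mem_win.2 ⟨hx, h1, hx2⟩
      rw [hp] at h2
      exact (mem_win.1 h2).1
    · have hj : x / (8 * m) < 12 := by
        rw [Nat.div_lt_iff_lt_mul (by omega)]; omega
      have e1 := Nat.div_add_mod x (8 * m)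
      have e2 := Nat.mod_lt x (show 8 * m > 0 by omega)
      set j := x / (8 * m)
      have r0 : 2 * m * (4 * j) = 8 * m * j := by ring
      have r1 : 2 * m * (4 * j + 1) = 8 * m * j + 2 * m := by ring
      have r4 : 2 * m * (4 * j + 4) = 8 * m * j + 8 * m := by ring
      by_cases h2 : x < 2 * m * (4 * j + 1)
      · have h3 : x ∈ (parts m k B).1 ⟨j, hj⟩ := mem_win.2 ⟨hx, by simp only; omega, h2⟩
        rw [hp] at h3
        exact (mem_win.1 h3).1
      · have h3 : x ∈ B ∩ Wset m := mem_inter.2 ⟨hx, mem_Wset.2 ⟨j, hj, by omega, by omega⟩⟩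
        rw [hW] at h3
        exact (mem_inter.1 h3).1
  exact subset_antisymm (key B B' hB hW hp) (key B' B hB' hW.symm hp.symm)

theorem win_subset (B : Finset ℕ) (a b : ℕ) : win B a b ⊆ Ico a b :=
  fun _ hx => mem_Ico.2 (mem_win.1 hx).2

theorem card_U (m j : ℕ) : (Ico (2 * m * (4 * j)) (2 * m * (4 * j + 1))).card = 2 * m := by
  rw [Nat.card_Ico]
  have : 2 * m * (4 * j + 1) = 2 * m * (4 * j) + 2 * m := by ring
  omega

theorem count_all {m k : ℕ} (hm : 0 < m) (F : Finset (Finset ℕ)) (Z : Finset ℕ)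
    (h1 : ∀ B ∈ F, B ⊆ range (2 * k)) (h2 : ∀ B ∈ F, B ∩ Wset m = Z) :
    F.card ≤ (2 ^ (2 * m)) ^ 12 * 2 ^ (2 * k - 96 * m) := by
  have c : F.card ≤ ((Fintype.piFinset (fun j : Fin 12 =>
      (Ico (2 * m * (4 * j)) (2 * m * (4 * j + 1))).powerset)) ×ˢ
      (Ico (96 * m) (2 * k)).powerset).card := by
    refine card_le_card_of_injOn (parts m k) ?_ ?_
    · intro B _
      rw [mem_coe, mem_product, Fintype.mem_piFinset]
      exact ⟨fun j => mem_powerset.2 (win_subset _ _ _), mem_powerset.2 (win_subset _ _ _)⟩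
    · intro B hB B' hB' hp
      exact parts_inj hm (h1 B hB) (h1 B' hB') ((h2 B hB).trans (h2 B' hB').symm) hp
  rw [card_product, Fintype.card_piFinset, card_powerset, Nat.card_Ico] at c
  simpa only [card_powerset, card_U, prod_const, card_univ, Fintype.card_fin] using c

theorem count_fibre {m k : ℕ} (hm : 0 < m) (F : Finset (Finset ℕ)) (Z : Finset ℕ)
    (h1 : ∀ B ∈ F, B ⊆ range (2 * k)) (h2 : ∀ B ∈ F, B ∩ Wset m = Z)
    (h3 : ∀ B ∈ F, ∀ B' ∈ F, ∀ j, j < 12 →
      rk B (2 * m * (4 * j + 1)) = rk B' (2 * m * (4 * j + 1))) :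
    F.card ≤ (Nat.centralBinom m) ^ 12 * 2 ^ (2 * k - 96 * m) := by
  rcases F.eq_empty_or_nonempty with h0 | ⟨B0, hB0⟩
  · rw [h0]; simp
  have h4 : ∀ B ∈ F, ∀ j, j < 12 → rk B (2 * m * (4 * j)) = rk B0 (2 * m * (4 * j)) := by
    intro B hB j hj
    cases j with
    | zero => simp [rk]
    | succ j =>
      have l : 2 * m * (4 * j + 1) ≤ 2 * m * (4 * j + 4) := Nat.mul_le_mul_left _ (by omega)
      rw [show 4 * (j + 1) = 4 * j + 4 by ring, card_win B l, card_win B0 l,
        h3 B hB B0 hB0 j (by omega), ← win_inter B (show j < 12 by omega),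
        ← win_inter B0 (show j < 12 by omega), h2 B hB, h2 B0 hB0]
  have c : F.card ≤ ((Fintype.piFinset (fun j : Fin 12 =>
      (Ico (2 * m * (4 * j)) (2 * m * (4 * j + 1))).powersetCard
        (win B0 (2 * m * (4 * j)) (2 * m * (4 * j + 1))).card)) ×ˢ
      (Ico (96 * m) (2 * k)).powerset).card := by
    refine card_le_card_of_injOn (parts m k) ?_ ?_
    · intro B hB
      rw [mem_coe, mem_product, Fintype.mem_piFinset]
      refine ⟨fun j => mem_powersetCard.2 ⟨win_subset _ _ _, ?_⟩,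
        mem_powerset.2 (win_subset _ _ _)⟩
      have l : 2 * m * (4 * j) ≤ 2 * m * (4 * j + 1) := Nat.mul_le_mul_left _ (by omega)
      have e1 := card_win B l
      have e2 := card_win B0 l
      have e3 := h3 B hB B0 hB0 j j.2
      have e4 := h4 B hB j j.2
      show (win B (2 * m * (4 * j)) (2 * m * (4 * j + 1))).card = _
      omega
    · intro B hB B' hB' hp
      exact parts_inj hm (h1 B hB) (h1 B' hB') ((h2 B hB).trans (h2 B' hB').symm) hp
  rw [card_product, Fintype.card_piFinset, card_powerset, Nat.card_Ico] at c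
  refine c.trans (Nat.mul_le_mul_right _ ?_)
  calc ∏ j : Fin 12, ((Ico (2 * m * (4 * j)) (2 * m * (4 * j + 1))).powersetCard
        (win B0 (2 * m * (4 * j)) (2 * m * (4 * j + 1))).card).card
      ≤ ∏ _j : Fin 12, Nat.centralBinom m := by
        apply prod_le_prod'
        intro j _
        rw [card_powersetCard, card_U]
        exact Nat.choose_le_centralBinom _ _
    _ = _ := by simp

theorem cb_bound (m : ℕ) : (Nat.centralBinom m) ^ 2 * (3 * m + 1) ≤ 16 ^ m := by
  induction m with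
  | zero => simp
  | succ m ih =>
    have h := Nat.succ_mul_centralBinom_succ m
    have hpos : 0 < (m + 1) ^ 2 * (3 * m + 1) := by positivity
    apply Nat.le_of_mul_le_mul_left _ hpos
    calc (m + 1) ^ 2 * (3 * m + 1) * ((m + 1).centralBinom ^ 2 * (3 * (m + 1) + 1))
        = ((m + 1) * (m + 1).centralBinom) ^ 2 * ((3 * m + 1) * (3 * (m + 1) + 1)) := by ring
      _ = (2 * (2 * m + 1)) ^ 2 * (3 * (m + 1) + 1) * (m.centralBinom ^ 2 * (3 * m + 1)) := by
          rw [h]; ring
      _ ≤ (2 * (2 * m + 1)) ^ 2 * (3 * (m + 1) + 1) * 16 ^ m := Nat.mul_le_mul_left _ ih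
      _ ≤ (16 * ((m + 1) ^ 2 * (3 * m + 1))) * 16 ^ m := by
          apply Nat.mul_le_mul_right
          nlinarith [Nat.zero_le m, Nat.zero_le (m ^ 2), Nat.zero_le (m ^ 3)]
      _ = (m + 1) ^ 2 * (3 * m + 1) * 16 ^ (m + 1) := by ring

/-- the twelve patterns read off a set -/
noncomputable def Phi (m s h : ℕ) (A : Finset ℕ) : Fin 12 → Om h (2 * m + 2 * s + h + 2) :=
  fun j => pat h (2 * m + 2 * s + h + 2) (en A) ((4 * j + 1) * m + s)

theorem phi_eq (σ : ℕ ↪ ℕ) (hσ : StrictMono σ) {m s h : ℕ} (hm : 2 * h + 8 * s + 3 ≤ m)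
    {B : Finset ℕ} (hB : Typ m s B) (j : Fin 12) :
    Phi m s h (B.map σ) j = pat h (2 * m + 2 * s + h + 2)
      (fun i => σ (en (win B (2 * m * (4 * j + 1)) (2 * m * (4 * j + 4))) i))
      ((4 * j + 1) * m + s - rk B (2 * m * (4 * j + 1))) := by
  have h1 := hB (4 * j + 1) (by omega)
  obtain ⟨t1, -, -, -⟩ := typ_win hB j.2
  have l : 2 * m * (4 * j + 1) ≤ 2 * m * (4 * j + 4) := Nat.mul_le_mul_left _ (by omega)
  have e1 := card_win B l
  have e2 : rk B (2 * m * (4 * j + 4)) ≤ B.card := card_filter_le _ _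
  set Z := win B (2 * m * (4 * j + 1)) (2 * m * (4 * j + 4)) with hZ
  set o := rk B (2 * m * (4 * j + 1)) with ho
  set p := (4 * j + 1) * m + s with hp
  have key : ∀ i, i < Z.card → en (B.map σ) (o + i) = σ (en Z i) := by
    intro i hi
    rw [en_map B σ hσ (by omega), ho, hZ, en_win B _ _ hi]
  funext l i
  have hl := l.2
  have hi := i.2
  simp only [Phi, pat, decide_eq_decide, sg]
  rw [← hp, arr_local l (en (B.map σ)) (fun i => σ (en Z i)) (p + i) (p - o + i),
    arr_local l (en (B.map σ)) (fun i => σ (en Z i)) (p + i + 1) (p - o + i + 1)]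
  · intro c hc
    rw [← key _ (by omega)]
    congr 1; omega
  · intro c hc
    rw [← key _ (by omega)]
    congr 1; omega

theorem abs_chi {ι : Type*} [DecidableEq ι] (G : Finset ι) (x : ι) : |chi G x| = 1 := by
  unfold chi; split_ifs <;> simp

open Classical in
theorem finite_main {k m s h : ℕ} (hm : 2 * h + 8 * s + 3 ≤ m) (hk : 48 * m ≤ k) (hs : 0 < s)
    {θ : ℝ} (hθ : 0 < θ)
    (hsmall : (2 : ℝ) ^ (72 * m) * 2 ^ (12 * ((2 * s + 1) * ((h + 1) * (2 * m + 2 * s + h + 2)))) *
      (2 * Real.exp (-(θ ^ 2 * m ^ 6 / 2))) < 1) :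
    ∃ G : Finset (Fin 12 → Om h (2 * m + 2 * s + h + 2)), ∀ σ : ℕ ↪ ℕ, StrictMono σ →
      (∀ i, i < 2 * k → σ i < tw h) →
      |∑ B ∈ (range (2 * k)).powersetCard k, chi G (Phi m s h (B.map σ))| ≤
        θ * 4 ^ k + 12 * ((2 * s + 4) / (m - 2 * s) * ((2 * k).choose k : ℝ)) +
          98 * (4 ^ k * Real.exp (-((s : ℝ) ^ 2 / k))) := by
  set L := 2 * m + 2 * s + h + 2 with hL
  have hm0 : 0 < m := by omega
  set R := 2 * k - 96 * m with hR
  let P : Finset (Finset ℕ × (Fin 12 → Fin (2 * s + 1) → Om h L)) :=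
    (Wset m).powerset ×ˢ (univ.filter (fun ω => ∀ j, Function.Injective (ω j)))
  let F : Finset ℕ × (Fin 12 → Fin (2 * s + 1) → Om h L) → Finset (Finset ℕ) := fun p =>
    ((range (2 * k)).powersetCard k).filter (fun B => Typ m s B ∧ B ∩ Wset m = p.1)
  let φ : Finset ℕ × (Fin 12 → Fin (2 * s + 1) → Om h L) → Finset ℕ → (Fin 12 → Om h L) :=
    fun p B j => p.2 j ⟨min ((4 * j + 1) * m + s - rk B (2 * m * (4 * j + 1))) (2 * s), by omega⟩
  have hcb : (0 : ℝ) < Nat.centralBinom m := by exact_mod_cast Nat.centralBinom_pos m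
  obtain ⟨G, hG⟩ := extractor P F φ ((Nat.centralBinom m : ℝ) ^ 12 * 2 ^ R)
    ((2 ^ (2 * m)) ^ 12 * 2 ^ R) (θ * ((2 ^ (2 * m)) ^ 12 * 2 ^ R)) (by positivity)
    (by positivity) (by positivity)
    (by
      intro p _
      have := count_all (k := k) hm0 (F p) p.1
        (fun B hB => (mem_powersetCard.1 (mem_filter.1 hB).1).1)
        (fun B hB => (mem_filter.1 hB).2.2)
      exact_mod_cast this)
    (by
      intro p hp x
      have hinj := (mem_filter.1 (mem_product.1 hp).2).2
      have := count_fibre (k := k) hm0 ((F p).filter (fun b => φ p b = x)) p.1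
        (fun B hB => (mem_powersetCard.1 (mem_filter.1 (mem_filter.1 hB).1).1).1)
        (fun B hB => (mem_filter.1 (mem_filter.1 hB).1).2.2)
        (by
          intro B hB B' hB' j hj
          have a1 := (mem_filter.1 (mem_filter.1 hB).1).2.1 (4 * j + 1) (by omega)
          have a2 := (mem_filter.1 (mem_filter.1 hB').1).2.1 (4 * j + 1) (by omega)
          have a3 := congrFun ((mem_filter.1 hB).2.trans (mem_filter.1 hB').2.symm) ⟨j, hj⟩
          have a4 := congrArg Fin.val (hinj ⟨j, hj⟩ a3)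
          simp only at a4
          omega)
      exact_mod_cast this)
    (by
      refine lt_of_le_of_lt ?_ hsmall
      have c1 : P.card ≤ 2 ^ (72 * m) * 2 ^ (12 * ((2 * s + 1) * ((h + 1) * L))) := by
        rw [card_product, card_powerset]
        apply Nat.mul_le_mul (Nat.pow_le_pow_right (by norm_num) (card_Wset m))
        refine (card_filter_le _ _).trans (le_of_eq ?_)
        simp only [card_univ, Fintype.card_fun, Fintype.card_fin, Fintype.card_bool]
        rw [← pow_mul, ← pow_mul, ← pow_mul]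
        congr 1; ring
      have c2 : (P.card : ℝ) ≤ 2 ^ (72 * m) * 2 ^ (12 * ((2 * s + 1) * ((h + 1) * L))) := by
        exact_mod_cast c1
      apply mul_le_mul c2 _ (by positivity) (by positivity)
      apply mul_le_mul_of_nonneg_left _ (by norm_num)
      apply Real.exp_le_exp.2
      rw [neg_le_neg_iff]
      have c3 : ((Nat.centralBinom m : ℝ) ^ 2 * m) ≤ 16 ^ m := by
        have := cb_bound m
        have h2 : (Nat.centralBinom m) ^ 2 * m ≤ 16 ^ m :=
          le_trans (Nat.mul_le_mul_left _ (by omega)) this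
        exact_mod_cast h2
      have c4 : ((Nat.centralBinom m : ℝ) ^ 2 * m) ^ 6 ≤ (16 ^ m) ^ 6 :=
        pow_le_pow_left₀ (by positivity) c3 6
      have c5 : ((16 : ℝ) ^ m) ^ 6 = (2 ^ (2 * m)) ^ 12 := by
        rw [← pow_mul, ← pow_mul, show (16 : ℝ) = 2 ^ 4 by norm_num, ← pow_mul]
        congr 1; ring
      rw [c5] at c4
      have c6 : (θ * ((2 ^ (2 * m)) ^ 12 * 2 ^ R)) ^ 2 /
          (2 * ((Nat.centralBinom m : ℝ) ^ 12 * 2 ^ R * ((2 ^ (2 * m)) ^ 12 * 2 ^ R))) =
          θ ^ 2 * ((2 ^ (2 * m)) ^ 12 / (Nat.centralBinom m : ℝ) ^ 12) / 2 := by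
        field_simp
      rw [c6]
      have c7 : (m : ℝ) ^ 6 ≤ (2 ^ (2 * m)) ^ 12 / (Nat.centralBinom m : ℝ) ^ 12 := by
        rw [le_div_iff₀ (by positivity)]
        calc (m : ℝ) ^ 6 * (Nat.centralBinom m : ℝ) ^ 12
            = ((Nat.centralBinom m : ℝ) ^ 2 * m) ^ 6 := by ring
          _ ≤ _ := c4
      have := mul_le_mul_of_nonneg_left c7 (sq_nonneg θ)
      linarith)
  refine ⟨G, fun σ hσ hN => ?_⟩
  set PC := (range (2 * k)).powersetCard k with hPC
  let good : Finset ℕ → Prop := fun B => Typ m s B ∧ ∀ j, j < 12 →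
    ¬ Bad σ h L s (win B (2 * m * (4 * j + 1)) (2 * m * (4 * j + 4)))
  rw [← sum_filter_add_sum_filter_not PC good]
  refine (abs_add_le _ _).trans ?_
  rw [add_assoc (θ * 4 ^ k)]
  apply add_le_add
  · -- the main term
    rw [← sum_fiberwise_of_maps_to (s := PC.filter good) (t := (Wset m).powerset)
      (g := fun B => B ∩ Wset m) (fun B _ => mem_powerset.2 inter_subset_right)]
    refine (abs_sum_le_sum_abs _ _).trans ?_
    have c1 : ∀ Z ∈ (Wset m).powerset, |∑ B ∈ (PC.filter good).filter (fun B => B ∩ Wset m = Z),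
        chi G (Phi m s h (B.map σ))| ≤ θ * ((2 ^ (2 * m)) ^ 12 * 2 ^ R) := by
      intro Z hZ
      by_cases hg : ∀ j, j < 12 →
        ¬ Bad σ h L s (win Z (2 * m * (4 * j + 1)) (2 * m * (4 * j + 4)))
      · let ω : Fin 12 → Fin (2 * s + 1) → Om h L := fun j t => pat h L
          (fun i => σ (en (win Z (2 * m * (4 * j + 1)) (2 * m * (4 * j + 4))) i)) t
        have hω : ∀ j, Function.Injective (ω j) := by
          intro j t t' htt
          by_contra hne
          have hne' : (t : ℕ) ≠ t' := fun e => hne (Fin.ext e)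
          have ht := t.2
          have ht' := t'.2
          rcases lt_or_gt_of_ne hne' with h1 | h1
          · exact hg j j.2 ⟨t, t', h1, by omega, htt⟩
          · exact hg j j.2 ⟨t', t, h1, by omega, htt.symm⟩
        have hp : (Z, ω) ∈ P := mem_product.2 ⟨hZ, mem_filter.2 ⟨mem_univ _, hω⟩⟩
        have e1 : (PC.filter good).filter (fun B => B ∩ Wset m = Z) = F (Z, ω) := by
          ext B
          simp only [F, mem_filter, good]
          constructor
          · rintro ⟨⟨h1, h2, _⟩, h3⟩; exact ⟨h1, h2, h3⟩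
          · rintro ⟨h1, h2, h3⟩
            refine ⟨⟨h1, h2, fun j hj => ?_⟩, h3⟩
            rw [← win_inter B hj, h3]; exact hg j hj
        rw [e1, sum_congr rfl (g := fun B => chi G (φ (Z, ω) B))]
        · exact (hG _ hp).le
        · intro B hB
          obtain ⟨-, h2, h3⟩ := mem_filter.1 hB
          congr 1
          funext j
          rw [phi_eq σ hσ hm h2 j]
          have a1 := h2 (4 * j + 1) (by omega)
          simp only [φ, ω]
          rw [← win_inter B j.2, h3, min_eq_left (by omega)]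
      · have e1 : (PC.filter good).filter (fun B => B ∩ Wset m = Z) = ∅ := by
          rw [eq_empty_iff_forall_notMem]
          intro B hB
          obtain ⟨h1, h3⟩ := mem_filter.1 hB
          apply hg
          intro j hj
          rw [← h3, win_inter B hj]
          exact (mem_filter.1 h1).2.2 j hj
        rw [e1, sum_empty, abs_zero]; positivity
    refine (sum_le_sum c1).trans ?_
    rw [sum_const, card_powerset, nsmul_eq_mul]
    have c2 : ((2 ^ (Wset m).card : ℕ) : ℝ) ≤ 2 ^ (72 * m) := by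
      exact_mod_cast Nat.pow_le_pow_right (by norm_num) (card_Wset m)
    have c3 : (4 : ℝ) ^ k = 2 ^ (72 * m) * ((2 ^ (2 * m)) ^ 12 * 2 ^ R) := by
      rw [← pow_mul, ← pow_add, ← pow_add, show (4 : ℝ) = 2 ^ 2 by norm_num, ← pow_mul]
      congr 1; omega
    calc ((2 ^ (Wset m).card : ℕ) : ℝ) * (θ * ((2 ^ (2 * m)) ^ 12 * 2 ^ R))
        ≤ 2 ^ (72 * m) * (θ * ((2 ^ (2 * m)) ^ 12 * 2 ^ R)) :=
          mul_le_mul_of_nonneg_right c2 (by positivity)
      _ = θ * 4 ^ k := by rw [c3]; ring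
  · -- the exceptional sets
    refine (abs_sum_le_sum_abs _ _).trans ?_
    simp only [abs_chi, sum_const, nsmul_eq_mul, mul_one]
    have c1 : PC.filter (fun B => ¬ good B) ⊆
        (range 12).biUnion (fun j => PC.filter (fun B => Typ m s B ∧
          Bad σ h L s (win B (2 * m * (4 * j + 1)) (2 * m * (4 * j + 4))))) ∪
        ((range (2 * k)).powerset).filter (fun B => ¬ Typ m s B) := by
      intro B hB
      obtain ⟨h1, h2⟩ := mem_filter.1 hB
      rw [mem_union]
      by_cases h3 : Typ m s B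
      · left
        simp only [good, not_and, not_forall, not_not] at h2
        obtain ⟨j, hj, h4⟩ := h2 h3
        exact mem_biUnion.2 ⟨j, mem_range.2 hj, mem_filter.2 ⟨h1, h3, h4⟩⟩
      · right
        exact mem_filter.2 ⟨mem_powerset.2 (mem_powersetCard.1 h1).1, h3⟩
    have c2 := (card_le_card c1).trans ((card_union_le _ _).trans
      (Nat.add_le_add_right card_biUnion_le _))
    have c3 : ((PC.filter (fun B => ¬ good B)).card : ℝ) ≤
        ∑ j ∈ range 12, ((PC.filter (fun B => Typ m s B ∧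
          Bad σ h L s (win B (2 * m * (4 * j + 1)) (2 * m * (4 * j + 4))))).card : ℝ) +
        ((((range (2 * k)).powerset).filter (fun B => ¬ Typ m s B)).card : ℝ) := by
      exact_mod_cast c2
    refine c3.trans (add_le_add ?_ (tail_count hk (by omega) hs))
    have c4 : ∀ j ∈ range 12, ((PC.filter (fun B => Typ m s B ∧
          Bad σ h L s (win B (2 * m * (4 * j + 1)) (2 * m * (4 * j + 4))))).card : ℝ) ≤
          (2 * s + 4) / (m - 2 * s) * ((2 * k).choose k : ℝ) := by
      intro j hj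
      have a1 := bad_count hσ hk hN hm (mem_range.1 hj)
      have a2 : 2 * s < m := by omega
      have a3 : (2 * s : ℝ) < m := by exact_mod_cast a2
      rw [div_mul_eq_mul_div, le_div_iff₀ (by linarith), mul_comm (2 * (s : ℝ) + 4)]
      have a4 : ((m - 2 * s : ℕ) : ℝ) = m - 2 * s := by
        rw [Nat.cast_sub a2.le]; push_cast; ring
      rw [← a4]
      exact_mod_cast a1
    refine (sum_le_sum c4).trans ?_
    rw [sum_const, card_range, nsmul_eq_mul]
    push_cast
    exact le_rfl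

end Pool.Agent.H169Z
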